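import Mathlib

/-!
# A contraction on tuples of power series
-/

namespace Pool.Agent.P8H52.GO

open PowerSeries

universe u

variable {κ : Type u} [Field κ]

/-- the fixed point theorem -/
theorem fixpt {ι : Type} (Φ : (ι → κ⟦X⟧) → (ι → κ⟦X⟧)) (y0 : ι → κ⟦X⟧)
    (h0 : ∀ i, X ∣ Φ y0 i - y0 i)
    (h : ∀ a b, (∀ i, X ∣ a i - y0 i) → (∀ i, X ∣ b i - y0 i) → ∀ j, 1 ≤ j →
      (∀ i, X ^ j ∣ a i - b i) → ∀ i, X ^ (j + 1) ∣ Φ a i - Φ b i) :
    ∃ y : ι → κ⟦X⟧, (∀ i, X ∣ y i - y0 i) ∧ Φ y = y := by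
  have hX : ∀ j : ℕ, 1 ≤ j → (X : κ⟦X⟧) ∣ X ^ j := fun j hj => dvd_pow_self _ (by omega)
  -- the domain
  have hdom : ∀ a, (∀ i, X ∣ a i - y0 i) → ∀ i, X ∣ Φ a i - y0 i := by
    intro a ha i
    have h1 := h a y0 ha (fun i => by rw [sub_self]; exact dvd_zero _) 1 le_rfl
      (fun i => by rw [pow_one]; exact ha i) i
    have h2 := ((hX 2 (by norm_num)).trans h1).add (h0 i)
    have e : Φ a i - y0 i = Φ a i - Φ y0 i + (Φ y0 i - y0 i) := by ring
    rw [e]
    exact h2
  set s : ℕ → ι → κ⟦X⟧ := fun n => Φ^[n] y0 with hs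
  have hs1 : ∀ n, s (n + 1) = Φ (s n) := fun n => Function.iterate_succ_apply' Φ n y0
  have hsd : ∀ n, ∀ i, X ∣ s n i - y0 i := by
    intro n
    induction n with
    | zero => intro i; rw [hs]; simp
    | succ n ih => rw [hs1]; exact hdom _ ih
  have hst : ∀ n, ∀ i, X ^ (n + 1) ∣ s (n + 1) i - s n i := by
    intro n
    induction n with
    | zero =>
      intro i
      rw [hs1, zero_add, pow_one]
      exact h0 i
    | succ n ih =>
      intro i
      have h1 := h (s (n + 1)) (s n) (hsd _) (hsd _) (n + 1) (by omega) ih i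
      rw [← hs1, ← hs1] at h1
      exact h1
  have hst2 : ∀ n k, ∀ i, X ^ (n + 1) ∣ s (n + k) i - s n i := by
    intro n k
    induction k with
    | zero => intro i; simp
    | succ k ih =>
      intro i
      have e : s (n + (k + 1)) i - s n i =
          (s (n + k + 1) i - s (n + k) i) + (s (n + k) i - s n i) := by
        rw [← add_assoc]; ring
      rw [e]
      exact dvd_add ((pow_dvd_pow _ (by omega)).trans (hst (n + k) i)) (ih i)
  -- the limit
  set y : ι → κ⟦X⟧ := fun i => PowerSeries.mk fun j => coeff j (s j i) with hy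
  have hlim : ∀ n, ∀ i, X ^ (n + 1) ∣ y i - s n i := by
    intro n i
    rw [X_pow_dvd_iff]
    intro m hm
    rw [map_sub, hy, coeff_mk, sub_eq_zero]
    have h1 := hst2 m (n - m) i
    rw [show m + (n - m) = n by omega, X_pow_dvd_iff] at h1
    have h2 := h1 m (by omega)
    rw [map_sub, sub_eq_zero] at h2
    exact h2.symm
  have hyd : ∀ i, X ∣ y i - y0 i := by
    intro i
    have := hlim 0 i
    rw [zero_add, pow_one] at this
    exact this
  refine ⟨y, hyd, ?_⟩
  funext i
  rw [← sub_eq_zero]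
  ext m
  rw [map_zero]
  have h1 := h y (s m) hyd (hsd m) (m + 1) (by omega) (hlim m) i
  rw [← hs1] at h1
  have h2 := hlim (m + 1) i
  have h3 : X ^ (m + 2) ∣ Φ y i - y i := by
    have e : Φ y i - y i = (Φ y i - s (m + 1) i) - (y i - s (m + 1) i) := by ring
    rw [e]
    exact dvd_sub h1 h2
  exact X_pow_dvd_iff.1 h3 m (by omega)

lemma X_dvd_of_cc {a : κ⟦X⟧} (h : constantCoeff a = 0) : X ∣ a := X_dvd_iff.2 h

/-- solutions of `P (y i) = X ^ S * ε * y (nx i)` with given constant coefficients, which are simple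
roots of the reduction of `P` -/
theorem solve {ι : Type} (nx : ι → ι) (P : Polynomial κ⟦X⟧) (G : Polynomial κ)
    (hPG : P.map constantCoeff = G) (S : ℕ) (hS : 1 ≤ S) (ε : κ⟦X⟧) (θ : ι → κ)
    (hθ : ∀ i, G.eval (θ i) = 0) (hθ' : ∀ i, G.derivative.eval (θ i) ≠ 0) :
    ∃ y : ι → κ⟦X⟧, (∀ i, constantCoeff (y i) = θ i) ∧
      ∀ i, P.eval (y i) = X ^ S * ε * y (nx i) := by
  have hev : ∀ (Q : Polynomial κ⟦X⟧) (a : κ⟦X⟧), constantCoeff (Q.eval a) =
      (Q.map constantCoeff).eval (constantCoeff a) := by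
    intro Q a
    rw [Polynomial.eval_map, Polynomial.eval₂_at_apply]
  set Φ : (ι → κ⟦X⟧) → (ι → κ⟦X⟧) := fun y i =>
    y i - C (G.derivative.eval (θ i))⁻¹ * (P.eval (y i) - X ^ S * ε * y (nx i)) with hΦ
  have hXS : (X : κ⟦X⟧) ∣ X ^ S := dvd_pow_self _ (by omega)
  obtain ⟨y, hy, hfix⟩ := fixpt Φ (fun i => C (θ i)) (by
    intro i
    have e : Φ (fun i => C (θ i)) i - C (θ i) =
        -(C (G.derivative.eval (θ i))⁻¹ * (P.eval (C (θ i)) - X ^ S * ε * C (θ (nx i)))) := by
      rw [hΦ]; ring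
    show X ∣ Φ (fun i => C (θ i)) i - C (θ i)
    rw [e, dvd_neg]
    apply Dvd.dvd.mul_left
    apply dvd_sub
    · apply X_dvd_of_cc
      rw [hev, hPG, constantCoeff_C]
      exact hθ i
    · exact (hXS.mul_right _).mul_right _) (by
    intro a b ha hb j hj hab i
    have hbi : constantCoeff (b i) = θ i := by
      have := X_dvd_iff.1 (hb i)
      rw [map_sub, constantCoeff_C, sub_eq_zero] at this
      exact this
    obtain ⟨k, hk⟩ := P.binomExpansion (b i) (a i - b i)
    rw [add_sub_cancel] at hk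
    -- the derivative
    have hd : X ∣ P.derivative.eval (b i) - C (G.derivative.eval (θ i)) := by
      apply X_dvd_of_cc
      rw [map_sub, hev, constantCoeff_C, ← Polynomial.derivative_map, hPG, hbi, sub_self]
    have hg : C (G.derivative.eval (θ i))⁻¹ * C (G.derivative.eval (θ i)) = (1 : κ⟦X⟧) := by
      rw [← map_mul, inv_mul_cancel₀ (hθ' i), map_one]
    have e : Φ a i - Φ b i = -(C (G.derivative.eval (θ i))⁻¹ * ((a i - b i) *
        ((P.derivative.eval (b i) - C (G.derivative.eval (θ i))) + k * (a i - b i)))) +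
        C (G.derivative.eval (θ i))⁻¹ * ε * (X ^ S * (a (nx i) - b (nx i))) := by
      rw [hΦ]
      show a i - C (G.derivative.eval (θ i))⁻¹ * (P.eval (a i) - X ^ S * ε * a (nx i)) -
        (b i - C (G.derivative.eval (θ i))⁻¹ * (P.eval (b i) - X ^ S * ε * b (nx i))) = _
      rw [hk]
      linear_combination -(a i - b i) * hg
    rw [e]
    apply dvd_add
    · rw [dvd_neg]
      apply Dvd.dvd.mul_left
      rw [pow_succ]
      apply mul_dvd_mul (hab i)
      apply dvd_add hd
      apply Dvd.dvd.mul_left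
      have h1 := hab i
      exact (dvd_pow_self _ (by omega)).trans h1
    · apply Dvd.dvd.mul_left
      rw [pow_succ, mul_comm (X ^ j) X]
      exact mul_dvd_mul hXS (hab (nx i)))
  refine ⟨y, fun i => ?_, fun i => ?_⟩
  · have := X_dvd_iff.1 (hy i)
    rw [map_sub, constantCoeff_C, sub_eq_zero] at this
    exact this
  · have h1 := congrFun hfix i
    have h2 : C (G.derivative.eval (θ i))⁻¹ * (P.eval (y i) - X ^ S * ε * y (nx i)) = 0 := by
      have h3 : y i - C (G.derivative.eval (θ i))⁻¹ * (P.eval (y i) - X ^ S * ε * y (nx i)) = y i := h1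
      linear_combination -h3
    have h4 : (C (G.derivative.eval (θ i))⁻¹ : κ⟦X⟧) ≠ 0 := by
      intro h
      have := congrArg constantCoeff h
      rw [constantCoeff_C, map_zero] at this
      exact inv_ne_zero (hθ' i) this
    exact sub_eq_zero.1 ((mul_eq_zero.1 h2).resolve_left h4)

end Pool.Agent.P8H52.GO
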