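import Pool.Agent.P8H91.GO.Stm
import Pool.Agent.P8H52.GO.LocA

/-!
# Package LOC: all solutions of `f^(m+n)(x) = f^m(x)` near `T = ∞`
-/

namespace Pool.Agent.P8H52.GO

open Pool.Agent.P8H91.GO

universe u

variable {κ : Type u} [Field κ]

/-- the powers of the uniformiser -/
noncomputable def sg (a : ℤ) : LaurentSeries κ := HahnSeries.single a 1

lemma sg_mul (a b : ℤ) : (sg a : LaurentSeries κ) * sg b = sg (a + b) := by
  unfold sg
  rw [HahnSeries.single_mul_single, mul_one]

lemma sg_zero : (sg 0 : LaurentSeries κ) = 1 := rfl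

lemma sg_pow (a : ℤ) (n : ℕ) : (sg a : LaurentSeries κ) ^ n = sg (n * a) := by
  unfold sg
  rw [HahnSeries.single_pow, one_pow, nsmul_eq_mul]

lemma sg_ne (a : ℤ) : (sg a : LaurentSeries κ) ≠ 0 := HahnSeries.single_ne_zero one_ne_zero

lemma sg_inv (a : ℤ) : (sg a : LaurentSeries κ)⁻¹ = sg (-a) := by
  apply inv_eq_of_mul_eq_one_right
  rw [sg_mul, add_neg_cancel, sg_zero]

/-- the embedding of the power series -/
noncomputable abbrev em : PowerSeries κ →+* LaurentSeries κ := HahnSeries.ofPowerSeries ℤ κ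

lemma em_X_pow (n : ℕ) : em (PowerSeries.X ^ n : PowerSeries κ) = sg (n : ℤ) :=
  HahnSeries.ofPowerSeries_X_pow n

lemma em_C (a : κ) : em (PowerSeries.C a) = algebraMap κ (LaurentSeries κ) a := rfl

lemma em_inj : Function.Injective (em : PowerSeries κ →+* LaurentSeries κ) :=
  HahnSeries.ofPowerSeries_injective

lemma coeff_sg_em (r : ℤ) (y : PowerSeries κ) {i : ℤ} (hi : i < -r) :
    (sg (-r) * em y : LaurentSeries κ).coeff i = 0 := by
  unfold sg
  rw [HahnSeries.coeff_single_mul, one_mul]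
  have h := LaurentSeries.coeff_coe_powerSeries y
  have h2 := PowerSeries.coeff_coe y (i - -r)
  rw [if_pos (by linarith)] at h2
  exact h2

section

variable (F : Polynomial (Polynomial κ)) (δ : Polynomial κ) (r : ℤ) (e : ℕ)

/-- the exponents -/
noncomputable def NN (i j : ℕ) : ℤ :=
  e * F.leadingCoeff.natDegree + r * ((F.natDegree : ℤ) - i) - e * j

/-- the polynomial over the power series -/
noncomputable def PP : Polynomial (PowerSeries κ) :=
  ∑ i ∈ Finset.range (F.natDegree + 1), ∑ j ∈ (F.coeff i).support,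
    Polynomial.C (PowerSeries.C ((F.coeff i).coeff j) * PowerSeries.X ^ (NN F r e i j).toNat) *
      Polynomial.X ^ i

/-- the unit -/
noncomputable def ee : PowerSeries κ :=
  ∑ j ∈ δ.support, PowerSeries.C (δ.coeff j) * PowerSeries.X ^ (e * (δ.natDegree - j))

end

variable {F : Polynomial (Polynomial κ)} {δ : Polynomial κ} {r : ℤ} {e : ℕ}

lemma PP_map (h : Expanding F δ r e) :
    (PP F r e).map PowerSeries.constantCoeff = leadForm F r e := by
  unfold PP leadForm
  rw [Polynomial.map_sum]
  refine Finset.sum_congr rfl fun i hi => ?_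
  rw [Polynomial.map_sum]
  refine Finset.sum_congr rfl fun j hj => ?_
  have h1 := h.hle i j (Polynomial.mem_support_iff.1 hj)
  rw [Polynomial.map_mul, Polynomial.map_C, Polynomial.map_pow, Polynomial.map_X, map_mul, map_pow,
    PowerSeries.constantCoeff_X, PowerSeries.constantCoeff_C]
  split_ifs with h2
  · have : (NN F r e i j).toNat = 0 := by
      unfold NN
      omega
    rw [this, pow_zero, mul_one]
  · have : (NN F r e i j).toNat ≠ 0 := by
      unfold NN
      omega
    rw [zero_pow this, mul_zero, map_zero, zero_mul]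

lemma eval_fam (x : LaurentSeries κ) :
    (fam F δ (HahnSeries.single (-(e : ℤ)) (1 : κ) : LaurentSeries κ)).eval x =
    (∑ j ∈ δ.support, algebraMap κ (LaurentSeries κ) (δ.coeff j) * sg (-(e : ℤ)) ^ j)⁻¹ *
    ∑ i ∈ Finset.range (F.natDegree + 1), ∑ j ∈ (F.coeff i).support,
      algebraMap κ (LaurentSeries κ) ((F.coeff i).coeff j) * sg (-(e : ℤ)) ^ j * x ^ i := by
  unfold fam
  rw [Polynomial.eval_mul, Polynomial.eval_C, Polynomial.eval_map, Polynomial.eval₂_eq_sum_range]
  congr 1
  · congr 1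
    rw [Polynomial.aeval_def, Polynomial.eval₂_eq_sum, Polynomial.sum_def]
    rfl
  · refine Finset.sum_congr rfl fun i _ => ?_
    rw [← Finset.sum_mul]
    congr 1
    show Polynomial.aeval _ (F.coeff i) = _
    rw [Polynomial.aeval_def, Polynomial.eval₂_eq_sum, Polynomial.sum_def]
    rfl

lemma em_PP (h : Expanding F δ r e) (y : PowerSeries κ) :
    em ((PP F r e).eval y) = sg ((e : ℤ) * F.leadingCoeff.natDegree + r * F.natDegree) *
    ∑ i ∈ Finset.range (F.natDegree + 1), ∑ j ∈ (F.coeff i).support,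
      algebraMap κ (LaurentSeries κ) ((F.coeff i).coeff j) * sg (-(e : ℤ)) ^ j *
        (sg (-r) * em y) ^ i := by
  unfold PP
  rw [Polynomial.eval_finsetSum, map_sum, Finset.mul_sum]
  refine Finset.sum_congr rfl fun i hi => ?_
  rw [Polynomial.eval_finsetSum, map_sum, Finset.mul_sum]
  refine Finset.sum_congr rfl fun j hj => ?_
  have h1 := h.hle i j (Polynomial.mem_support_iff.1 hj)
  rw [Polynomial.eval_mul, Polynomial.eval_C, Polynomial.eval_pow, Polynomial.eval_X, map_mul,
    map_mul, em_C, em_X_pow, map_pow, mul_pow, sg_pow, sg_pow]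
  have h2 : (((NN F r e i j).toNat : ℕ) : ℤ) = NN F r e i j := by
    apply Int.toNat_of_nonneg
    unfold NN
    omega
  rw [h2]
  have h3 : (sg (NN F r e i j) : LaurentSeries κ) =
      sg ((e : ℤ) * F.leadingCoeff.natDegree + r * F.natDegree) * sg ((j : ℤ) * -(e : ℤ)) *
        sg ((i : ℤ) * -r) := by
    rw [sg_mul, sg_mul]
    congr 1
    unfold NN
    ring
  rw [h3]
  ring

lemma em_ee (e : ℕ) : (∑ j ∈ δ.support, algebraMap κ (LaurentSeries κ) (δ.coeff j) *
    sg (-(e : ℤ)) ^ j) = sg (-(e * δ.natDegree : ℤ)) * em (ee δ e) := by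
  unfold ee
  rw [map_sum, Finset.mul_sum]
  refine Finset.sum_congr rfl fun j hj => ?_
  have hj' : j ≤ δ.natDegree := Polynomial.le_natDegree_of_mem_supp j hj
  rw [map_mul, em_C, em_X_pow, sg_pow]
  have h3 : (sg ((j : ℤ) * -(e : ℤ)) : LaurentSeries κ) = sg (-(e * δ.natDegree : ℤ)) *
      sg ((e * (δ.natDegree - j) : ℕ) : ℤ) := by
    rw [sg_mul]
    congr 1
    push_cast [Nat.cast_sub hj']
    ring
  rw [h3]
  ring

lemma cc_ee (hδ : δ ≠ 0) (he : 1 ≤ e) :
    PowerSeries.constantCoeff (ee δ e) = δ.leadingCoeff := by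
  unfold ee
  rw [map_sum, Finset.sum_eq_single δ.natDegree]
  · simp
  · intro j hj hne
    have hj' : j ≤ δ.natDegree := Polynomial.le_natDegree_of_mem_supp j hj
    rw [map_mul, map_pow, PowerSeries.constantCoeff_X, zero_pow, mul_zero]
    apply Nat.mul_ne_zero (by omega)
    omega
  · intro hj
    exact absurd (Polynomial.natDegree_mem_support_of_nonzero hδ) hj

/-- the transformation of one step -/
lemma step (h : Expanding F δ r e) {S : ℕ}
    (hS : (S : ℤ) = (e : ℤ) * ((F.leadingCoeff.natDegree : ℤ) - δ.natDegree) +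
      r * ((F.natDegree : ℤ) - 1)) {y y' : PowerSeries κ}
    (hy : (PP F r e).eval y = PowerSeries.X ^ S * ee δ e * y') :
    (fam F δ (HahnSeries.single (-(e : ℤ)) (1 : κ) : LaurentSeries κ)).eval (sg (-r) * em y) =
      sg (-r) * em y' := by
  rw [eval_fam, em_ee]
  have h1 := em_PP h y
  rw [hy, map_mul, map_mul, em_X_pow] at h1
  set Sg := ∑ i ∈ Finset.range (F.natDegree + 1), ∑ j ∈ (F.coeff i).support,
      algebraMap κ (LaurentSeries κ) ((F.coeff i).coeff j) * sg (-(e : ℤ)) ^ j *
        (sg (-r) * em y) ^ i with hSg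
  have hE : em (ee δ e) ≠ 0 := by
    intro h0
    have h2 : ee δ e = 0 := em_inj (by rw [h0, map_zero])
    have h3 := cc_ee (κ := κ) h.hδ h.he
    rw [h2, map_zero] at h3
    exact h.hδ (Polynomial.leadingCoeff_eq_zero.1 h3.symm)
  rw [inv_mul_eq_iff_eq_mul₀ (mul_ne_zero (sg_ne _) hE)]
  apply mul_left_cancel₀ (sg_ne (κ := κ) ((e : ℤ) * F.leadingCoeff.natDegree + r * F.natDegree))
  rw [← h1, hS]
  have h4 : (sg ((e : ℤ) * ((F.leadingCoeff.natDegree : ℤ) - δ.natDegree) +
      r * ((F.natDegree : ℤ) - 1)) : LaurentSeries κ) =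
      sg ((e : ℤ) * F.leadingCoeff.natDegree + r * F.natDegree) * sg (-(e * δ.natDegree : ℤ)) *
        sg (-r) := by
    rw [sg_mul, sg_mul]
    congr 1
    ring
  rw [h4]
  ring

/-! ### the leading form -/

lemma lead_coeff (h : Expanding F δ r e) : (leadForm F r e).coeff F.natDegree ≠ 0 := by
  have hF : F ≠ 0 := by
    intro h0
    have := h.hd
    rw [h0, Polynomial.natDegree_zero] at this
    omega
  have hl : F.leadingCoeff ≠ 0 := Polynomial.leadingCoeff_ne_zero.2 hF
  have h1 : (leadForm F r e).coeff F.natDegree = F.leadingCoeff.leadingCoeff := by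
    unfold leadForm
    rw [Polynomial.finsetSum_coeff, Finset.sum_eq_single F.natDegree]
    · rw [Polynomial.finsetSum_coeff, Finset.sum_eq_single F.leadingCoeff.natDegree]
      · rw [if_pos (by ring), Polynomial.coeff_C_mul, Polynomial.coeff_X_pow, if_pos rfl, mul_one]
        rfl
      · intro j hj hne
        rw [if_neg, Polynomial.coeff_zero]
        intro h2
        apply hne
        have he := h.he
        have h3 : (e : ℤ) * j = e * F.leadingCoeff.natDegree := by linarith
        have h4 : (j : ℤ) = F.leadingCoeff.natDegree := mul_left_cancel₀ (by positivity) h3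
        exact_mod_cast h4
      · intro hj
        exact absurd (Polynomial.natDegree_mem_support_of_nonzero hl) hj
    · intro i hi hne
      rw [Polynomial.finsetSum_coeff]
      apply Finset.sum_eq_zero
      intro j hj
      split_ifs
      · rw [Polynomial.coeff_C_mul, Polynomial.coeff_X_pow, if_neg (Ne.symm hne), mul_zero]
      · rw [Polynomial.coeff_zero]
    · intro hi
      exact absurd (Finset.mem_range.2 (by omega)) hi
  rw [h1]
  exact Polynomial.leadingCoeff_ne_zero.2 hl

lemma lead_deg (h : Expanding F δ r e) : (leadForm F r e).natDegree = F.natDegree := by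
  apply le_antisymm
  · unfold leadForm
    apply Polynomial.natDegree_sum_le_of_forall_le
    intro i hi
    apply Polynomial.natDegree_sum_le_of_forall_le
    intro j hj
    have := Finset.mem_range.1 hi
    split_ifs
    · exact (Polynomial.natDegree_C_mul_X_pow_le _ _).trans (by omega)
    · rw [Polynomial.natDegree_zero]
      omega
  · exact Polynomial.le_natDegree_of_ne_zero (lead_coeff h)

/-- **LOC** -/
theorem loc : S_LOC.{u} := by
  intro κ _ F δ r e h hsplit m n hn
  classical
  set G := leadForm F r e with hG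
  have hG0 : G ≠ 0 := by
    intro h0
    have := lead_coeff h
    rw [← hG, h0, Polynomial.coeff_zero] at this
    exact this rfl
  set R : Finset κ := G.roots.toFinset with hR
  have hRc : R.card = F.natDegree := by
    rw [hR, Multiset.toFinset_card_of_nodup (Polynomial.nodup_roots h.hsep), ← lead_deg h]
    exact (Polynomial.splits_iff_card_roots.1 hsplit)
  obtain ⟨S, hS⟩ : ∃ S : ℕ, (S : ℤ) = (e : ℤ) * ((F.leadingCoeff.natDegree : ℤ) - δ.natDegree) +
      r * ((F.natDegree : ℤ) - 1) := ⟨_, Int.toNat_of_nonneg h.hpos.le⟩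
  have hS1 : 1 ≤ S := by
    have := h.hpos
    rw [← hS] at this
    exact_mod_cast this
  set M := m + n with hM
  -- the successor
  let nx : Fin M → Fin M := fun i => if hi : i.1 + 1 < M then ⟨i.1 + 1, hi⟩ else ⟨m, by omega⟩
  have hsol : ∀ θ : Fin M → R, ∃ y : Fin M → PowerSeries κ,
      (∀ i, PowerSeries.constantCoeff (y i) = θ i) ∧
      ∀ i, (PP F r e).eval (y i) = PowerSeries.X ^ S * ee δ e * y (nx i) := by
    intro θ
    apply solve nx (PP F r e) G (PP_map h) S hS1 (ee δ e) (fun i => (θ i : κ))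
    · intro i
      have h1 : (θ i : κ) ∈ G.roots := Multiset.mem_toFinset.1 (θ i).2
      rw [Polynomial.mem_roots hG0] at h1
      exact h1
    · intro i
      have h1 : (θ i : κ) ∈ G.roots := Multiset.mem_toFinset.1 (θ i).2
      rw [Polynomial.mem_roots hG0] at h1
      exact h.hsep.eval₂_derivative_ne_zero (RingHom.id κ) (by rw [Polynomial.eval₂_id]; exact h1)
  choose y hy1 hy2 using hsol
  set f : LaurentSeries κ → LaurentSeries κ := fun y =>
    (fam F δ (HahnSeries.single (-(e : ℤ)) (1 : κ) : LaurentSeries κ)).eval y with hf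
  have hstep : ∀ θ i, f (sg (-r) * em (y θ i)) = sg (-r) * em (y θ (nx i)) := fun θ i =>
    step h hS (hy2 θ i)
  have hM0 : 0 < M := by omega
  have hit : ∀ θ (k : ℕ) (hk : k < M), f^[k] (sg (-r) * em (y θ ⟨0, hM0⟩)) =
      sg (-r) * em (y θ ⟨k, hk⟩) := by
    intro θ k
    induction k with
    | zero => intro hk; rfl
    | succ k ih =>
      intro hk
      rw [Function.iterate_succ_apply', ih (by omega), hstep]
      have : nx ⟨k, by omega⟩ = ⟨k + 1, hk⟩ := dif_pos hk
      rw [this]
  have hinj : Function.Injective fun θ : Fin M → R => sg (-r) * em (y θ ⟨0, hM0⟩) := by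
    intro θ θ' hθ
    funext i
    have h1 := hit θ i.1 i.2
    have h2 := hit θ' i.1 i.2
    have hθ' : sg (-r) * em (y θ ⟨0, hM0⟩) = sg (-r) * em (y θ' ⟨0, hM0⟩) := hθ
    rw [hθ', h2] at h1
    have h3 := em_inj (mul_left_cancel₀ (sg_ne _) h1)
    have h4 := congrArg PowerSeries.constantCoeff h3
    rw [Fin.eta, hy1, hy1] at h4
    exact Subtype.ext h4.symm
  refine ⟨Finset.univ.map ⟨_, hinj⟩, ?_, ?_⟩
  · rw [Finset.card_map, Finset.card_univ, Fintype.card_fun, Fintype.card_fin, Fintype.card_coe, hRc]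
  · intro x hx
    rw [Finset.mem_map] at hx
    obtain ⟨θ, -, rfl⟩ := hx
    refine ⟨fun i hi => coeff_sg_em r _ hi, ?_⟩
    show f^[M] (sg (-r) * em (y θ ⟨0, hM0⟩)) = f^[m] (sg (-r) * em (y θ ⟨0, hM0⟩))
    obtain ⟨k, hk⟩ : ∃ k, M = k + 1 := ⟨M - 1, by omega⟩
    rw [hit θ m (by omega)]
    have h1 := hit θ k (by omega)
    have h2 : f^[M] (sg (-r) * em (y θ ⟨0, hM0⟩)) = f (f^[k] (sg (-r) * em (y θ ⟨0, hM0⟩))) :=
      (congrFun (congrArg (fun t => f^[t]) hk) _).trans (Function.iterate_succ_apply' f k _)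
    rw [h2, h1, hstep]
    have : nx ⟨k, by omega⟩ = ⟨m, by omega⟩ := dif_neg (by
      show ¬ (k + 1 < M)
      omega)
    rw [this]

end Pool.Agent.P8H52.GO
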